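import Pool.Agent.Hhelper97.Sph.Final
import Pool.Agent.SphFH.Barnes

/-!
# MP_43990b_pr, Q1: Fisher-Hartwig asymptotics for the spherical ensemble

Standard complex Gaussian law, complex Ginibre matrices, the moment `E |P_n(z)|^γ`, the Barnes
`G`-function (by its Weierstrass product) and the predicted main term are defined in
`Pool/Agent/Hhelper97/Sph/Defs.lean`, `Pool/Agent/Hhelper97/Sph/Assemble.lean` and
`Pool/Agent/SphFH/Barnes.lean`.
-/

open MeasureTheory Filter Topology

namespace Pool.Agent.Results.MP_43990b_pr.FisherHartwigQ1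

/-- Full answer to Q1: the expectation exists for `|Re γ| < 2`, and the ratio of the moment of the
characteristic polynomial of the spherical ensemble to the main term tends to `1`, uniformly for
`z` in compact sets of `ℂ` and `γ` in compact subsets of the strip `|Re γ| < 2`. (The first
conjunct records that the Weierstrass product in the definition of the Barnes function
converges.) -/
theorem result :
    (∀ s : ℂ, 0 < s.re → Multipliable (Sph.bFac (s - 1))) ∧
    (∀ (n : ℕ) (z γ : ℂ), |γ.re| < 2 →
      Integrable (fun p : (Fin n × Fin n → ℂ) × (Fin n × Fin n → ℂ) =>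
        Complex.exp (γ * ((Real.log ‖(z • (1 : Matrix (Fin n) (Fin n) ℂ) -
          Sph.mat p.1 * (Sph.mat p.2)⁻¹).det‖ : ℝ) : ℂ)))
        ((Sph.G (Fin n × Fin n)).prod (Sph.G (Fin n × Fin n)))) ∧
    ∀ K Γ : Set ℂ, IsCompact K → IsCompact Γ → (∀ γ ∈ Γ, |γ.re| < 2) →
      TendstoUniformlyOn (fun (n : ℕ) (p : ℂ × ℂ) =>
        Sph.sphericalMoment n p.1 p.2 / Sph.mainTerm Sph.barnesG n p.1 p.2)
        (fun _ => 1) atTop (K ×ˢ Γ) := by
  refine ⟨fun s hs => ?_, fun n z γ hγ => ?_, fun K Γ hK hΓ hΓs => ?_⟩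
  · have h : -1 < (s - 1).re := by
      rw [Complex.sub_re, Complex.one_re]; linarith
    exact (Sph.hasProd_bFac h).multipliable
  · have h : |(γ / 2).re| < 1 := by
      have h2 : (γ / 2).re = γ.re / 2 := by simp
      rw [h2, abs_div, abs_of_pos (by norm_num : (0 : ℝ) < 2), div_lt_one (by norm_num)]
      exact hγ
    have h3 := Sph.spherical_integrable n z h
    rw [mul_div_cancel₀ γ two_ne_zero] at h3
    exact h3
  · refine Sph.final_of_asymp Sph.barnesG ?_ hK hΓ hΓs
    intro L hL hLs
    obtain ⟨R, hR⟩ := hL.isBounded.exists_norm_le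
    exact (Sph.barnes_asymp R).mono fun a ha => ⟨hLs a ha, hR a ha⟩

end Pool.Agent.Results.MP_43990b_pr.FisherHartwigQ1
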