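import Pool.Agent.MPF.Final

/-!
# MP_43990b_pr, Q2: multi-point Fisher-Hartwig asymptotics for the spherical ensemble

Standard complex Gaussian law, complex Ginibre matrices and the Barnes `G`-function (by its
Weierstrass product) are defined in `Pool/Agent/Hhelper97/Sph/Defs.lean` and
`Pool/Agent/SphFH/Barnes.lean`; the multi-point moment `mpMoment` and the predicted main term
`mpMain` are defined in `Pool/Agent/MPF/Final.lean`.
-/

open MeasureTheory Filter Topology

namespace Pool.Agent.Results.MP_43990b_pr.FisherHartwigQ2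

/-- Full answer to Q2: for pairwise distinct points `z_i` and exponents with `Re γ_i > -2` and
`Re (∑ γ_i) < 2` the expectation of `∏ |P_n(z_i)|^{γ_i}` exists for every `n`, and its ratio to
the predicted main term tends to `1`. (The first conjunct records that the Weierstrass product in
the definition of the Barnes function converges.) -/
theorem result :
    (∀ s : ℂ, 0 < s.re → Multipliable (Sph.bFac (s - 1))) ∧
    ∀ (k : ℕ) (z γ : Fin k → ℂ), Function.Injective z → (∀ i, -2 < (γ i).re) →
      (∑ i, γ i).re < 2 →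
      (∀ n : ℕ, Integrable (fun p : (Fin n × Fin n → ℂ) × (Fin n × Fin n → ℂ) =>
        ∏ i, Complex.exp (γ i * ((Real.log ‖(z i • (1 : Matrix (Fin n) (Fin n) ℂ) -
          Sph.mat p.1 * (Sph.mat p.2)⁻¹).det‖ : ℝ) : ℂ)))
        ((Sph.G (Fin n × Fin n)).prod (Sph.G (Fin n × Fin n)))) ∧
      Tendsto (fun n : ℕ => MPF.mpMoment n z γ / MPF.mpMain Sph.barnesG n z γ) atTop (𝓝 1) := by
  refine ⟨fun s hs => ?_, fun k z γ hz hγ hσ => ⟨fun n => ?_, ?_⟩⟩
  · have h : -1 < (s - 1).re := by
      rw [Complex.sub_re, Complex.one_re]; linarith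
    exact (Sph.hasProd_bFac h).multipliable
  · exact MPF.multi_integrable n z γ hz hγ hσ
  · exact MPF.multi_point z γ hz hγ hσ

end Pool.Agent.Results.MP_43990b_pr.FisherHartwigQ2
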